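import Pool.Agent.Q104.HS.Wr

set_option autoImplicit false

/-!
# An uncountable chain of quasi-parabolic hyperbolic structures on the wreath product of two
infinite cyclic groups

For a real number `q > 1` let `X_q` consist of `t`, `t⁻¹` and all lamp functions `f` with
`∑ q ^ n * |f n| ≤ 1`.  These generating sets give quasi-parabolic hyperbolic structures, and they
form a chain of the order type of the real line.
-/

namespace Pool.Agent.Results.MP_6b630c_al.UncountableChain

open Pool.Agent.Q104.HS

/-- The poset of quasi-parabolic structures on the restricted wreath product of the group of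
integers with the group of integers contains an uncountable chain, even one which is order
isomorphic to the real line. -/
theorem result :
    ∃ C : Set (Str (Wr (Multiplicative ℤ))),
      C ⊆ Hqp (Wr (Multiplicative ℤ)) ∧ IsChain (· ≤ ·) C ∧ ¬ C.Countable ∧
        Nonempty (ℝ ≃o C) := by
  let L : Wr.Len (Multiplicative ℤ) :=
    { l := fun a => (Multiplicative.toAdd a).natAbs
      l_one := rfl
      l_mul := fun a b => Int.natAbs_add_le _ _
      l_inv := fun a => Int.natAbs_neg _ }
  have hL : Function.Surjective L.l := fun n => ⟨Multiplicative.ofAdd (n : ℤ), rfl⟩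
  obtain ⟨F, hF, hF'⟩ := Wr.exists_chain L hL
  have hpos : ∀ r : ℝ, 1 < 1 + Real.exp (-r) := fun r => by
    have := Real.exp_pos (-r)
    linarith
  let F' : ℝ → Str (Wr (Multiplicative ℤ)) := fun r => F ⟨1 + Real.exp (-r), hpos r⟩
  have hF'' : StrictMono F' := by
    intro a b hab
    apply hF
    show 1 + Real.exp (-b) < 1 + Real.exp (-a)
    have := Real.exp_lt_exp.2 (neg_lt_neg hab)
    linarith
  refine ⟨Set.range F', ?_, ?_, ?_, ⟨hF''.orderIso⟩⟩
  · rintro _ ⟨r, rfl⟩
    exact hF' _
  · rintro _ ⟨p, rfl⟩ _ ⟨q, rfl⟩ _
    rcases le_total p q with h | h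
    · left; exact hF''.monotone h
    · right; exact hF''.monotone h
  · intro hc
    have h1 : (Set.univ : Set ℝ).Countable := by
      have := hc.preimage_of_injOn (f := F') (hF''.injective.injOn)
      simpa using this
    exact Cardinal.not_countable_real h1

end Pool.Agent.Results.MP_6b630c_al.UncountableChain
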